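import Pool.Agent.H.MP_d8535d_co.Main

namespace Pool.Agent.Results.MP_d8535d_co.Full
open Filter Topology Pool.Agent.H.MP_d8535d_co

theorem result (a b : ℕ) (ha : 1 ≤ a) (hb : 1 ≤ b) :
    Tendsto (fun n => p n a - p n b) atTop (𝓝 0) ∧
    (∀ L : ℝ, Tendsto (fun n => p n a) atTop (𝓝 L) ↔ Tendsto (fun n => p n b) atTop (𝓝 L)) ∧
    limUnder atTop (fun n => p n a) = limUnder atTop (fun n => p n b) := by
  have h : ∀ L : ℝ, Tendsto (fun n => p n a) atTop (𝓝 L) ↔
      Tendsto (fun n => p n b) atTop (𝓝 L) := fun L =>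
    ⟨fun h => by simpa using h.sub (main a b ha hb), fun h => by simpa using h.add (main a b ha hb)⟩
  refine ⟨main a b ha hb, h, ?_⟩
  unfold limUnder lim
  congr 1
  exact funext fun L => propext (h L)

end Pool.Agent.Results.MP_d8535d_co.Full
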